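import Pool.Agent.H5.BHG.Stmts

set_option autoImplicit false

namespace Pool.BHG

open Filter TMLib Pool.PG Pool.DPG

theorem ctm_fs_msk (g : Game) (f : ℕ → Bool) (v : ℕ) :
    v ∈ fs g (msk g.length f) ↔ v < g.length ∧ f v = true := by
  unfold fs msk
  rw [Finset.mem_filter, Finset.mem_range]
  constructor
  · rintro ⟨h1, h2⟩
    refine ⟨h1, ?_⟩
    rw [List.getD_eq_getElem _ _ (by simpa using h1)] at h2
    simpa using h2
  · rintro ⟨h1, h2⟩
    refine ⟨h1, ?_⟩
    rw [List.getD_eq_getElem _ _ (by simpa using h1)]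
    simpa using h2

theorem ctm_tup_len (n : ℕ) : ∀ (t : ℕ) (b : List ℕ), b ∈ tup n t → b.length = t := by
  intro t
  induction t with
  | zero =>
    intro b hb
    simp only [tup, List.mem_singleton] at hb
    rw [hb]
    rfl
  | succ t ih =>
    intro b hb
    simp only [tup, List.mem_flatMap, List.mem_map] at hb
    obtain ⟨a, -, c, hc, rfl⟩ := hb
    rw [List.length_cons, ih c hc]

theorem ctm_tup_ex (n : ℕ) (hn : 0 < n) : ∀ (t : ℕ) (S : Finset ℕ), S ⊆ Finset.range n → S.card ≤ t →
    ∃ b ∈ tup n t, ∀ v ∈ S, v ∈ b := by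
  intro t
  induction t with
  | zero =>
    intro S _ hc
    refine ⟨[], by simp [tup], fun v hv => ?_⟩
    have h0 : S = ∅ := Finset.card_eq_zero.1 (Nat.le_zero.1 hc)
    rw [h0] at hv
    exact absurd hv (Finset.notMem_empty v)
  | succ t ih =>
    intro S hS hc
    rcases S.eq_empty_or_nonempty with h0 | ⟨a, ha⟩
    · obtain ⟨b, hb, -⟩ := ih ∅ (Finset.empty_subset _) (Nat.zero_le _)
      refine ⟨0 :: b, ?_, fun v hv => ?_⟩
      · simp only [tup, List.mem_flatMap, List.mem_map]
        exact ⟨0, List.mem_range.2 hn, b, hb, rfl⟩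
      · rw [h0] at hv
        exact absurd hv (Finset.notMem_empty v)
    · obtain ⟨b, hb, hb'⟩ := ih (S.erase a) ((Finset.erase_subset a S).trans hS) (by
        rw [Finset.card_erase_of_mem ha]; omega)
      refine ⟨a :: b, ?_, fun v hv => ?_⟩
      · simp only [tup, List.mem_flatMap, List.mem_map]
        exact ⟨a, List.mem_range.2 (Finset.mem_range.1 (hS ha)), b, hb, rfl⟩
      · by_cases hva : v = a
        · rw [hva]; exact List.mem_cons_self
        · exact List.mem_cons_of_mem a (hb' v (Finset.mem_erase.2 ⟨hva, hv⟩))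

theorem ctm_mem (t : ℕ) (g : Game) (q : Bool × List Bool) :
    q ∈ ct t g ↔ ∃ b ∈ tup g.length t,
      q = (true, msk g.length fun v => own g v || decide (v ∈ b)) ∨
      q = (false, msk g.length fun v => !own g v || decide (v ∈ b)) := by
  unfold ct
  simp only [List.mem_flatMap, List.mem_cons, List.not_mem_nil, or_false]

theorem ctm_thm : CTMStmt := by
  intro t g hg
  constructor
  · intro j B hB hc
    obtain ⟨b, hb, hb'⟩ := ctm_tup_ex g.length hg t (B.filter fun v => own g v ≠ j)
      ((Finset.filter_subset _ _).trans hB) hc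
    cases j with
    | true =>
      refine ⟨msk g.length fun v => own g v || decide (v ∈ b), (ctm_mem t g _).2 ⟨b, hb, Or.inl rfl⟩,
        fun v hv => ?_⟩
      rw [ctm_fs_msk]
      refine ⟨Finset.mem_range.1 (hB hv), ?_⟩
      by_cases ho : own g v = true
      · simp [ho]
      · have h1 : v ∈ b := hb' v (Finset.mem_filter.2 ⟨hv, ho⟩)
        simp [h1]
    | false =>
      refine ⟨msk g.length fun v => !own g v || decide (v ∈ b), (ctm_mem t g _).2 ⟨b, hb, Or.inr rfl⟩,
        fun v hv => ?_⟩
      rw [ctm_fs_msk]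
      refine ⟨Finset.mem_range.1 (hB hv), ?_⟩
      by_cases ho : own g v = false
      · simp [ho]
      · have h1 : v ∈ b := hb' v (Finset.mem_filter.2 ⟨hv, ho⟩)
        simp [h1]
  · intro q hq
    obtain ⟨b, hb, h | h⟩ := (ctm_mem t g q).1 hq
    · rw [h]
      have hsub : ((fs g (msk g.length fun v => own g v || decide (v ∈ b))).filter
          fun v => own g v ≠ true) ⊆ b.toFinset := by
        intro v hv
        obtain ⟨h1, h2⟩ := Finset.mem_filter.1 hv
        have h3 := ((ctm_fs_msk g _ v).1 h1).2
        rw [List.mem_toFinset]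
        rcases (Bool.or_eq_true _ _).mp h3 with h4 | h4
        · exact absurd h4 h2
        · exact of_decide_eq_true h4
      exact (Finset.card_le_card hsub).trans ((List.toFinset_card_le b).trans (ctm_tup_len _ t b hb).le)
    · rw [h]
      have hsub : ((fs g (msk g.length fun v => !own g v || decide (v ∈ b))).filter
          fun v => own g v ≠ false) ⊆ b.toFinset := by
        intro v hv
        obtain ⟨h1, h2⟩ := Finset.mem_filter.1 hv
        have h3 := ((ctm_fs_msk g _ v).1 h1).2
        rw [List.mem_toFinset]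
        rcases (Bool.or_eq_true _ _).mp h3 with h4 | h4
        · exact absurd (by simpa using h4) h2
        · exact of_decide_eq_true h4
      exact (Finset.card_le_card hsub).trans ((List.toFinset_card_le b).trans (ctm_tup_len _ t b hb).le)

end Pool.BHG
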